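import Pool.Agent.Helper8.OD.KeyLemma
set_option autoImplicit false
set_option linter.all false
universe u v
namespace OD

/-- P1: key lemma on normal jumps -/
theorem key {G : Type u} [Group G] [LinearOrder G] [MulLeftMono G] [MulRightMono G] (A V : Subgroup G)
    (hA : A.Normal) (hV : V.Normal) (hAab : ∀ a ∈ A, ∀ b ∈ A, a * b = b * a) (hnil : Group.IsNilpotent (G ⧸ A))
    (hjump : ∀ u ∈ V, 1 < u → ∀ b ∈ V, ∃ (x : G) (n : ℕ), b ≤ x * u ^ n * x⁻¹) :
    (∀ a ∈ A, ∀ v ∈ V, a * v = v * a) ∧ (∀ v ∈ V, ∀ w ∈ V, v * w = w * v) := by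
  obtain ⟨c, hc⟩ := (nilpotent_iff_lowerCentralSeries (G := G ⧸ A)).1 hnil
  have hE : ∀ x g : G, ∀ k, (QuotientGroup.mk' A) (H8OD.E x g k) ∈ Subgroup.lowerCentralSeries (⊤ : Subgroup (G ⧸ A)) k := by
    intro x g k
    induction k with
    | zero => simp [Subgroup.lowerCentralSeries]
    | succ k ih =>
      show (QuotientGroup.mk' A) (x * H8OD.E x g k * x⁻¹ * (H8OD.E x g k)⁻¹) ∈
        ⁅Subgroup.lowerCentralSeries (⊤ : Subgroup (G ⧸ A)) k, (⊤ : Subgroup (G ⧸ A))⁆
      have h1 := Subgroup.commutator_mem_commutator ih (Subgroup.mem_top ((QuotientGroup.mk' A) x))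
      have h2 := Subgroup.inv_mem _ h1
      convert h2 using 1
      rw [commutatorElement_inv, commutatorElement_def]
      simp only [map_mul, map_inv]
  have hc' : ∀ x g : G, H8OD.E x g c ∈ A := by
    intro x g
    have h := hE x g c
    rw [hc, Subgroup.mem_bot] at h
    exact (QuotientGroup.eq_one_iff _).1 h
  exact ⟨fun a ha v hv => (H8OD.claim1 A V hA hV hAab c hc' hjump v hv a ha).symm,
    H8OD.claim2 A V hA hV hAab c hc' hjump⟩

end OD
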