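import Pool.Agent.Helper189.OD.Defs
set_option autoImplicit false
set_option linter.all false
universe u v
namespace OD

/-- P3: cone on a product over a linearly ordered index set -/
theorem prod_cone {I : Type u} [LinearOrder I] (H : I → Type u) [∀ i, Group (H i)] (P : ∀ i, Set (H i))
    (hP : ∀ i, Cone (P i)) :
    ∃ PP : Set (∀ i, H i), Cone PP ∧
      ∀ (d : ∀ i, H i) (i : I), d i ∈ P i → (∀ j, i < j → d j = 1) → d ∈ PP := by
  classical
  let U : Ultrafilter (Finset I) := Ultrafilter.of Filter.atTop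
  have hU : (U : Filter (Finset I)) ≤ Filter.atTop := Ultrafilter.of_le _
  let pos : Finset I → (∀ i, H i) → Prop := fun F d => ∃ i ∈ F, d i ∈ P i ∧ ∀ j ∈ F, i < j → d j = 1
  have hmem : ∀ i : I, ∀ᶠ F in (U : Filter (Finset I)), i ∈ F := by
    intro i
    apply hU
    filter_upwards [Filter.mem_atTop ({i} : Finset I)] with F hF
    exact hF (Finset.mem_singleton_self i)
  refine ⟨{d | ∀ᶠ F in (U : Filter (Finset I)), pos F d}, ⟨?_, ?_, ?_, ?_⟩, ?_⟩
  · intro a ha b hb
    have ha' : ∀ᶠ F in (U : Filter (Finset I)), pos F a := ha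
    have hb' : ∀ᶠ F in (U : Filter (Finset I)), pos F b := hb
    show ∀ᶠ F in (U : Filter (Finset I)), pos F (a * b)
    filter_upwards [ha', hb'] with F h1 h2
    obtain ⟨i, hi, hai, hi'⟩ := h1
    obtain ⟨j, hj, hbj, hj'⟩ := h2
    rcases lt_trichotomy i j with hlt | hij | hlt
    · refine ⟨j, hj, ?_, fun k hk hjk => ?_⟩
      · rw [Pi.mul_apply, hi' j hj hlt, one_mul]; exact hbj
      · rw [Pi.mul_apply, hi' k hk (hlt.trans hjk), hj' k hk hjk, one_mul]
    · subst hij
      refine ⟨i, hi, (hP i).mul _ hai _ hbj, fun k hk hik => ?_⟩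
      rw [Pi.mul_apply, hi' k hk hik, hj' k hk hik, one_mul]
    · refine ⟨i, hi, ?_, fun k hk hik => ?_⟩
      · rw [Pi.mul_apply, hj' i hi hlt, mul_one]; exact hai
      · rw [Pi.mul_apply, hj' k hk (hlt.trans hik), hi' k hk hik, one_mul]
  · intro a ha g
    have ha' : ∀ᶠ F in (U : Filter (Finset I)), pos F a := ha
    show ∀ᶠ F in (U : Filter (Finset I)), pos F (g * a * g⁻¹)
    filter_upwards [ha'] with F h1
    obtain ⟨i, hi, hai, hi'⟩ := h1
    refine ⟨i, hi, (hP i).conj _ hai _, fun k hk hik => ?_⟩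
    simp [hi' k hk hik]
  · intro h
    have h' : ∀ᶠ F in (U : Filter (Finset I)), pos F 1 := h
    obtain ⟨F, i, hi, h1, _⟩ := h'.exists
    exact (hP i).one h1
  · intro d
    by_cases hd : d = 1
    · exact Or.inl hd
    right
    obtain ⟨i0, hi0⟩ : ∃ i, d i ≠ 1 := by
      by_contra hc
      push Not at hc
      exact hd (funext hc)
    have h : ∀ᶠ F in (U : Filter (Finset I)), pos F d ∨ pos F d⁻¹ := by
      filter_upwards [hmem i0] with F hF
      obtain ⟨m, hm, hmax⟩ := Finset.exists_maximal (s := F.filter (fun i => d i ≠ 1)) ⟨i0, by simp [hF, hi0]⟩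
      have hm1 : m ∈ F := (Finset.mem_filter.1 hm).1
      have hm2 : d m ≠ 1 := (Finset.mem_filter.1 hm).2
      have htop : ∀ j ∈ F, m < j → d j = 1 := by
        intro j hj hmj
        by_contra hne
        exact absurd (hmax (Finset.mem_filter.2 ⟨hj, hne⟩) hmj.le) (not_le_of_gt hmj)
      rcases (hP m).tot (d m) with h | h | h
      · exact absurd h hm2
      · exact Or.inl ⟨m, hm1, h, htop⟩
      · exact Or.inr ⟨m, hm1, h, fun j hj hmj => by rw [Pi.inv_apply, htop j hj hmj, inv_one]⟩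
    exact Ultrafilter.eventually_or.1 h
  · rintro d i hdi hj
    show ∀ᶠ F in (U : Filter (Finset I)), pos F d
    filter_upwards [hmem i] with F hF
    exact ⟨i, hF, hdi, fun j _ h => hj j h⟩

end OD
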