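import Pool.Agent.Helper189.OD.Defs
set_option autoImplicit false
set_option linter.all false
universe u v
namespace OD

/-- unique roots -/
def UR (D : Type u) [Group D] : Prop := ∀ x y : D, ∀ n : ℕ, 0 < n → x ^ n = y ^ n → x = y

theorem UR.comm {D : Type u} [Group D] (h : UR D) {x y : D} {n : ℕ} (hn : 0 < n) (hc : Commute (x ^ n) y) :
    Commute x y := by
  have h1 : (y * x * y⁻¹) ^ n = x ^ n := by
    rw [conj_pow, ← hc.eq]; group
  have h2 := h _ _ n hn h1
  show x * y = y * x
  calc x * y = (y * x * y⁻¹) * y := by rw [h2]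
    _ = y * x := by group

theorem UR.of_injective {D K : Type u} [Group D] [Group K] (h : UR D) (f : K →* D) (hf : Function.Injective f) : UR K := by
  intro x y n hn hxy
  apply hf
  apply h _ _ n hn
  rw [← map_pow, ← map_pow, hxy]

theorem root_aux (K : Type u) [Group K] [Group.IsNilpotent K] :
    ∀ (D : Type u) [Group D], UR D → ∀ f : K →* D, Function.Injective f →
      ∃ M : Subgroup D, Group.IsNilpotent M ∧ ∀ y : D, y ∈ M ↔ ∃ m : ℕ, 0 < m ∧ y ^ m ∈ f.range := by
  refine Group.nilpotent_center_quotient_ind (P := fun K _ _ => ∀ (D : Type u) [Group D], UR D → ∀ f : K →* D, Function.Injective f →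
      ∃ M : Subgroup D, Group.IsNilpotent M ∧ ∀ y : D, y ∈ M ↔ ∃ m : ℕ, 0 < m ∧ y ^ m ∈ f.range) K ?_ ?_
  · intro K _ _ D _ hD f hf
    refine ⟨⊥, inferInstance, fun y => ?_⟩
    rw [Subgroup.mem_bot]
    constructor
    · rintro rfl; exact ⟨1, one_pos, by simp [Subgroup.one_mem]⟩
    · rintro ⟨m, hm, k, hk⟩
      have : k = 1 := Subsingleton.elim _ _
      rw [this, map_one] at hk
      exact hD _ _ m hm (by rw [← hk, one_pow])
  · intro K _ _ ih D _ hD f hf
    have hK : UR K := hD.of_injective f hf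
    -- centralizer of `f Z`
    let C : Subgroup D := Subgroup.centralizer (f '' (Subgroup.center K : Set K))
    have hC : ∀ d : D, d ∈ C ↔ ∀ z ∈ Subgroup.center K, Commute (f z) d := by
      intro d
      rw [Subgroup.mem_centralizer_iff]
      constructor
      · intro h z hz; exact h _ ⟨z, hz, rfl⟩
      · rintro h _ ⟨z, hz, rfl⟩; exact h z hz
    have hUC : UR C := hD.of_injective C.subtype (Subgroup.subtype_injective C)
    have hfC : ∀ k : K, f k ∈ C := by
      intro k
      rw [hC]
      intro z hz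
      show f z * f k = f k * f z
      rw [← map_mul, ← map_mul, Subgroup.mem_center_iff.1 hz k]
    have hrootC : ∀ (y : D) (m : ℕ), 0 < m → y ^ m ∈ C → y ∈ C := by
      intro y m hm h
      rw [hC] at h ⊢
      intro z hz
      exact (hD.comm hm (h z hz).symm).symm
    -- Zhat
    let Z : Subgroup C :=
      { carrier := {y | ∃ m : ℕ, 0 < m ∧ ∃ z ∈ Subgroup.center K, (y : D) ^ m = f z}
        one_mem' := ⟨1, one_pos, 1, Subgroup.one_mem _, by simp⟩
        mul_mem' := by
          rintro a b ⟨m, hm, z, hz, h1⟩ ⟨n, hn, w, hw, h2⟩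
          refine ⟨m * n, Nat.mul_pos hm hn, z ^ n * w ^ m, Subgroup.mul_mem _ (Subgroup.pow_mem _ hz _) (Subgroup.pow_mem _ hw _), ?_⟩
          have hab : Commute (a : D) (b : D) := by
            refine hD.comm hm ?_
            rw [h1]; exact (hC _).1 b.2 z hz
          rw [Subgroup.coe_mul, hab.mul_pow, map_mul, map_pow, map_pow, ← h1, ← h2, ← pow_mul, ← pow_mul, mul_comm n m]
        inv_mem' := by
          rintro a ⟨m, hm, z, hz, h1⟩
          exact ⟨m, hm, z⁻¹, Subgroup.inv_mem _ hz, by rw [Subgroup.coe_inv, inv_pow, h1, map_inv]⟩ }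
    have hZmem : ∀ y : C, y ∈ Z ↔ ∃ m : ℕ, 0 < m ∧ ∃ z ∈ Subgroup.center K, (y : D) ^ m = f z := fun y => Iff.rfl
    have hZc : ∀ y ∈ Z, ∀ d : C, Commute y d := by
      rintro y ⟨m, hm, z, hz, h1⟩ d
      refine hUC.comm hm ?_
      have : y ^ m = ⟨f z, hfC z⟩ := Subtype.ext (by simpa using h1)
      rw [this]
      exact Subtype.ext ((hC _).1 d.2 z hz)
    haveI hZn : Z.Normal := ⟨fun n hn g => by
      have : g * n * g⁻¹ = n := by rw [← (hZc n hn g).eq]; group
      rw [this]; exact hn⟩
    have hZroot : ∀ (y : C) (m : ℕ), 0 < m → y ^ m ∈ Z → y ∈ Z := by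
      rintro y m hm ⟨n, hn, z, hz, h⟩
      refine ⟨m * n, Nat.mul_pos hm hn, z, hz, ?_⟩
      rw [pow_mul]; simpa using h
    have hUQ : UR (C ⧸ Z) := by
      intro x y n hn hxy
      obtain ⟨x, rfl⟩ := QuotientGroup.mk_surjective x
      obtain ⟨y, rfl⟩ := QuotientGroup.mk_surjective y
      rw [← QuotientGroup.mk_pow, ← QuotientGroup.mk_pow, QuotientGroup.eq] at hxy
      rw [QuotientGroup.eq]
      have hz := hZc _ hxy
      -- y^n = x^n z
      have h1 : Commute (x ^ n) y := by
        have h2 : x ^ n = y ^ n * ((x ^ n)⁻¹ * y ^ n)⁻¹ := by group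
        rw [h2]
        exact (Commute.pow_self y n).mul_left ((hz y).inv_left)
      have h3 : Commute x y := hUC.comm hn h1
      refine hZroot _ n hn ?_
      rw [(h3.inv_left).mul_pow, inv_pow]; exact hxy
    -- induced map
    let f1 : K →* C := f.codRestrict C hfC
    have hf1 : ∀ k, (f1 k : D) = f k := fun k => rfl
    have hker : ∀ k : K, f1 k ∈ Z ↔ k ∈ Subgroup.center K := by
      intro k
      constructor
      · rintro ⟨m, hm, z, hz, h⟩
        have h' : k ^ m = z := hf (by rw [map_pow]; exact h)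
        rw [Subgroup.mem_center_iff]
        intro g
        have h2 : Commute (k ^ m) g := by rw [h']; exact (Subgroup.mem_center_iff.1 hz g).symm
        exact (hK.comm hm h2).symm
      · intro hk
        exact ⟨1, one_pos, k, hk, by simp [hf1]⟩
    let f2 : K ⧸ Subgroup.center K →* C ⧸ Z := QuotientGroup.map (Subgroup.center K) Z f1 (fun k hk => (hker k).2 hk)
    have hf2 : Function.Injective f2 := by
      rw [injective_iff_map_eq_one]
      intro k hk
      obtain ⟨k, rfl⟩ := QuotientGroup.mk_surjective k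
      have : ((f1 k : C) : C ⧸ Z) = 1 := hk
      rw [QuotientGroup.eq_one_iff] at this
      exact (QuotientGroup.eq_one_iff _).2 ((hker k).1 this)
    obtain ⟨M', hM'n, hM'⟩ := ih (C ⧸ Z) hUQ f2 hf2
    let M1 : Subgroup C := M'.comap (QuotientGroup.mk' Z)
    have hM1 : Group.IsNilpotent M1 := by
      haveI := hM'n
      let g : M1 →* M' := ((QuotientGroup.mk' Z).comp M1.subtype).codRestrict M' (fun x => x.2)
      refine Subgroup.isNilpotent_of_ker_le_center g ?_
      intro x hx
      rw [MonoidHom.mem_ker] at hx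
      have h1 : (((x : C)) : C ⧸ Z) = 1 := congrArg (Subtype.val) hx
      rw [QuotientGroup.eq_one_iff] at h1
      rw [Subgroup.mem_center_iff]
      intro y
      exact Subtype.ext ((hZc _ h1 (y : C)).symm)
    refine ⟨M1.map C.subtype, ?_, ?_⟩
    · haveI := hM1
      exact Group.nilpotent_of_mulEquiv (M1.equivMapOfInjective C.subtype (Subgroup.subtype_injective C))
    · intro y
      constructor
      · rintro ⟨y, hy, rfl⟩
        have h1 : (y : C ⧸ Z) ∈ M' := hy
        obtain ⟨m, hm, k, hk⟩ := (hM' _).1 h1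
        obtain ⟨k, rfl⟩ := QuotientGroup.mk_surjective k
        have h2 : ((f1 k : C) : C ⧸ Z) = ((y ^ m : C) : C ⧸ Z) := hk
        rw [QuotientGroup.eq] at h2
        have h3 := hZc _ h2
        obtain ⟨n, hn, z, hz, h4⟩ := id h2
        refine ⟨m * n, Nat.mul_pos hm hn, k ^ n * z, ?_⟩
        have h5 : y ^ m = f1 k * ((f1 k)⁻¹ * y ^ m) := by group
        have h6 : (y ^ m) ^ n = (f1 k) ^ n * ((f1 k)⁻¹ * y ^ m) ^ n := by
          conv_lhs => rw [h5]
          exact ((h3 (f1 k)).symm).mul_pow n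
        have h7 := congrArg (Subtype.val) h6
        rw [pow_mul, map_mul, map_pow]
        show f k ^ n * f z = ((y : D) ^ m) ^ n
        rw [← h4]
        simpa [hf1] using h7.symm
      · rintro ⟨m, hm, k, hk⟩
        have hyC : y ∈ C := hrootC y m hm (by rw [← hk]; exact hfC k)
        refine ⟨⟨y, hyC⟩, ?_, rfl⟩
        show ((⟨y, hyC⟩ : C) : C ⧸ Z) ∈ M'
        rw [hM']
        refine ⟨m, hm, (k : K ⧸ Subgroup.center K), ?_⟩
        show ((f1 k : C) : C ⧸ Z) = _
        rw [← QuotientGroup.mk_pow]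
        congr 1
        exact Subtype.ext (by simpa [hf1] using hk)

/-- P2: root closure of a nilpotent subgroup of a divisible group with unique roots -/
theorem root_closure {D : Type u} [Group D] (hdiv : Dvb D) (huniq : ∀ x y : D, ∀ n : ℕ, 0 < n → x ^ n = y ^ n → x = y)
    (K : Subgroup D) (hK : Group.IsNilpotent K) :
    ∃ M : Subgroup D, K ≤ M ∧ Group.IsNilpotent M ∧ (∀ y : D, y ∈ M ↔ ∃ m : ℕ, 0 < m ∧ y ^ m ∈ K) := by
  obtain ⟨M, hM, h⟩ := root_aux K D huniq K.subtype (Subgroup.subtype_injective K)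
  rw [Subgroup.range_subtype] at h
  exact ⟨M, fun k hk => (h k).2 ⟨1, one_pos, by simpa using hk⟩, hM, h⟩

end OD
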